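import Pool.Agent.Run7.h182.QS.Iface
import Pool.Agent.Run7.h4.VS.UpU
import Pool.Agent.Run7.h4.VS.Key

/-!
# UP: the upper bound for the partition functions with a vortex at polynomially large `β`
-/

set_option autoImplicit false
set_option linter.unusedSectionVars false

open MeasureTheory Matrix Filter Topology
open Run7.h4.YM Run7.h4.VS Run7.h182.QS

namespace Run7.h115.QS

theorem inv_ball {N : ℕ} [NeZero N] [MeasurableSpace (SU N)] {μ : Measure (SU N)} {c η : ℝ}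
    (hc : 0 < c) (hη : 0 < η) (h : c * η ^ (2 * N ^ 2) ≤ ball μ η) :
    (ball μ η)⁻¹ ≤ Real.exp (c⁻¹ + 2 * N ^ 2 * η⁻¹) := by
  have hb : 0 < c * η ^ (2 * N ^ 2) := by positivity
  have h1 : (ball μ η)⁻¹ ≤ (c * η ^ (2 * N ^ 2))⁻¹ := inv_anti₀ hb h
  refine h1.trans ?_
  rw [mul_inv, ← inv_pow, Real.exp_add]
  have h2 : c⁻¹ ≤ Real.exp c⁻¹ := by linarith [Real.add_one_le_exp c⁻¹]
  have h3 : η⁻¹ ≤ Real.exp η⁻¹ := by linarith [Real.add_one_le_exp η⁻¹]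
  have h4 : Real.exp (2 * N ^ 2 * η⁻¹) = Real.exp η⁻¹ ^ (2 * N ^ 2) := by
    rw [← Real.exp_nat_mul]
    congr 1
    push_cast
    ring
  rw [h4]
  exact mul_le_mul h2 (pow_le_pow_left₀ (by positivity) h3 _) (by positivity) (Real.exp_pos _).le

theorem four_pow_le {ε β : ℝ} (hε : 0 < ε) (hβ : 480 * (4 / ε) ^ 5 ≤ β) :
    4 * β ^ 4 ≤ Real.exp (β * (ε / 4)) := by
  have hβ0 : 0 < β := lt_of_lt_of_le (by positivity) hβ
  have h1 := Real.pow_div_factorial_le_exp (β * (ε / 4)) (by positivity) 5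
  refine le_trans ?_ h1
  have h5 : ((Nat.factorial 5 : ℕ) : ℝ) = 120 := by norm_num [Nat.factorial]
  rw [h5, le_div_iff₀ (by norm_num)]
  have h2 : (4 / ε) ^ 5 * (ε / 4) ^ 5 = 1 := by
    rw [← mul_pow]
    rw [show 4 / ε * (ε / 4) = 1 by field_simp, one_pow]
  have h3 : 480 * (4 / ε) ^ 5 * (β ^ 4 * (ε / 4) ^ 5) ≤ β * (β ^ 4 * (ε / 4) ^ 5) :=
    mul_le_mul_of_nonneg_right hβ (by positivity)
  have h4 : 480 * (4 / ε) ^ 5 * (β ^ 4 * (ε / 4) ^ 5) = 480 * β ^ 4 * ((4 / ε) ^ 5 * (ε / 4) ^ 5) := by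
    ring
  rw [h4, h2] at h3
  calc 4 * β ^ 4 * 120 = 480 * β ^ 4 * 1 := by ring
    _ ≤ β * (β ^ 4 * (ε / 4) ^ 5) := h3
    _ = (β * (ε / 4)) ^ 5 := by ring

theorem t_UP : S_KY → S_COMB2 → S_AB → S_BALL → S_UP := by
  intro hKY hCOMB hAB hBALL N k _ hN hk hζ P0 Q0 hs _ _ μ _ _ ε hε
  obtain ⟨C0, q, hC0, hKY⟩ := hKY N k hζ P0 Q0 hs
  obtain ⟨A, B, hA, hAB⟩ := hAB N k hN hk hζ P0 Q0 hs
  obtain ⟨c0, hc0, hball⟩ := hBALL N μ
  obtain ⟨κ, hκ, hcomb⟩ := hCOMB N B (ε / 4) (by positivity)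
  obtain ⟨e, he⟩ : ∃ e : ℝ, e = min ε 1 / 768 := ⟨_, rfl⟩
  have hm0 : 0 < min ε 1 := lt_min hε one_pos
  have he0 : 0 < e := by rw [he]; positivity
  have he1 : e ≤ 1 := by
    rw [he]
    have := min_le_right ε 1
    linarith
  have he2 : 192 * e ^ 2 ≤ ε / 4 := by
    have h1 : min ε 1 ≤ ε := min_le_left _ _
    have h2 : min ε 1 ≤ 1 := min_le_right _ _
    have h3 : min ε 1 * min ε 1 ≤ ε * 1 := mul_le_mul h1 h2 hm0.le hε.le
    rw [he]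
    nlinarith
  obtain ⟨C2, hC2⟩ : ∃ C2 : ℝ, C2 = 16 * (c0⁻¹ + 2 * N ^ 2 * e⁻¹) := ⟨_, rfl⟩
  have hC20 : 0 < C2 := by rw [hC2]; positivity
  obtain ⟨C, hC⟩ := exists_nat_ge (1 + κ * C0 + 4 / ε * (C2 * (κ * C0) ^ 3) + 480 * (4 / ε) ^ 5 : ℝ)
  have hCa : (1 : ℝ) ≤ C := by
    refine le_trans ?_ hC
    have : 0 ≤ (κ * C0 : ℝ) + 4 / ε * (C2 * (κ * C0) ^ 3) + 480 * (4 / ε) ^ 5 := by positivity
    linarith
  have hCb : (κ * C0 : ℝ) ≤ C := by
    refine le_trans ?_ hC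
    have : 0 ≤ 4 / ε * (C2 * (κ * C0) ^ 3) + 480 * (4 / ε) ^ 5 := by positivity
    linarith
  have hCc : 4 / ε * (C2 * (κ * C0) ^ 3) ≤ C := by
    refine le_trans ?_ hC
    have : 0 ≤ (κ * C0 : ℝ) + 480 * (4 / ε) ^ 5 := by positivity
    linarith
  have hCd : 480 * (4 / ε) ^ 5 ≤ (C : ℝ) := by
    refine le_trans ?_ hC
    have : 0 ≤ (κ * C0 : ℝ) + 4 / ε * (C2 * (κ * C0) ^ 3) := by positivity
    linarith
  refine ⟨C, 3 * (q + 1), by exact_mod_cast hCa, ?_⟩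
  intro l _ c S hS0 hS β hβ m m' _ _ hm hm' hmβ hmβ' i hi
  obtain ⟨F, lab, Cf', hF, hCD, hCD2, hgood⟩ := hKY l
  obtain ⟨D, hD⟩ : ∃ D : ℕ, D = C0 * l ^ q := ⟨_, rfl⟩
  rw [← hD] at hCD hCD2 hgood
  have hl1 : 1 ≤ l := NeZero.one_le
  have hl1r : (1 : ℝ) ≤ l := by exact_mod_cast hl1
  have hD1 : 1 ≤ D := by
    rw [hD]
    exact Nat.one_le_iff_ne_zero.2 (Nat.mul_ne_zero (by omega) (pow_ne_zero _ (by omega)))
  obtain ⟨K, hK⟩ : ∃ K : ℕ, K = κ * D := ⟨_, rfl⟩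
  have hK1 : 1 ≤ K := by
    rw [hK]
    exact Nat.one_le_iff_ne_zero.2 (Nat.mul_ne_zero (by omega) (by omega))
  have hKr : (K : ℝ) = κ * C0 * l ^ q := by
    rw [hK, hD]; push_cast; ring
  have hKC : K ≤ C * l ^ (3 * (q + 1)) := by
    have h1 : κ * C0 ≤ C := by exact_mod_cast hCb
    rw [hK, hD, ← mul_assoc]
    exact Nat.mul_le_mul h1 (Nat.pow_le_pow_right hl1 (by omega))
  have hKm : K ≤ m := hKC.trans hm
  have hKm' : K ≤ m' := hKC.trans hm'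
  have hCl : (1 : ℝ) ≤ l ^ (3 * (q + 1)) := one_le_pow₀ hl1r
  have hβC : (C : ℝ) ≤ β := by
    refine le_trans ?_ hβ
    nlinarith
  have hβ0 : 0 ≤ β := by linarith
  -- the bound of `S`
  have hSB : S ≤ B := by
    refine (hS i.val fun hd => hi (mul_zero_of hd)).trans (hAB l i.val).1
  -- some square has a large energy
  have hsq : ∀ U : Cf N m m' l, ∃ (s : ZMod (2 * m)) (r : ZMod (2 * m')),
      S - ε / 4 ≤ EB k K (fl i 0 0) s r U := by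
    intro U
    refine square_of (δ0 := (D : ℝ)⁻¹) (C := 1 + 3456 * (l : ℝ) ^ 2 * Cf' ^ 2) hζ hgood
      (fun mm u a b ha hb _ j hj => hF.key mm u a b ha hb j hj) hS ?_ (fl i 0 0)
      (by rw [sum_fl]; exact hi) U
    intro en qn hen hqn hrect hcq
    by_contra hcon
    push Not at hcon
    obtain ⟨s, r, a, b, ha, hb, haK, hbK, hring, hDring, hchg⟩ := hcomb c D hD1 (2 * m) (2 * m')
      (by rw [← hK]; omega) (by rw [← hK]; omega) en qn hen hqn (fun s r => by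
        rw [← hK]
        have := hcon s r
        linarith) hcq
    rw [← hK] at haK hbK
    have h1 := hrect s r a b ha hb haK hbK hring hchg
    have h2 := hcon s r
    have h3 : (∑ t ∈ Finset.range a, ∑ x ∈ Finset.range b, en (s + t) (r + x)) ≤
        ∑ t ∈ Finset.range K, ∑ x ∈ Finset.range K, en (s + t) (r + x) := by
      refine (Finset.sum_le_sum fun t _ => ?_).trans
        (Finset.sum_le_sum_of_subset_of_nonneg (Finset.range_mono haK) fun t _ _ =>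
          Finset.sum_nonneg fun x _ => hen _ _)
      exact Finset.sum_le_sum_of_subset_of_nonneg (Finset.range_mono hbK) fun x _ _ => hen _ _
    have h4 : (1 + 3456 * (l : ℝ) ^ 2 * Cf' ^ 2) * (∑ p ∈ ring a b, en (s + p.1) (r + p.2)) ≤
        D * ∑ p ∈ ring a b, en (s + p.1) (r + p.2) :=
      mul_le_mul_of_nonneg_right hCD2 (Finset.sum_nonneg fun p _ => hen _ _)
    linarith
  -- the estimate
  obtain ⟨η, hη⟩ : ∃ η : ℝ, η = e / (l * K) := ⟨_, rfl⟩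
  have hKr1 : (1 : ℝ) ≤ K := by exact_mod_cast hK1
  have hlK : (1 : ℝ) ≤ l * K := by nlinarith
  have hlK0 : (0 : ℝ) < l * K := by linarith
  have hη0 : 0 < η := by rw [hη]; positivity
  have hη1 : η ≤ 1 := by
    rw [hη, div_le_one hlK0]
    linarith
  have hη2 : 48 * (l : ℝ) ^ 2 * η ^ 2 * (4 * K * K) ≤ ε / 4 := by
    have : 48 * (l : ℝ) ^ 2 * η ^ 2 * (4 * K * K) = 192 * e ^ 2 := by
      rw [hη]
      have hl0 : (l : ℝ) ≠ 0 := by positivity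
      have hK0 : (K : ℝ) ≠ 0 := by positivity
      field_simp
      ring
    rw [this]
    exact he2
  have hinv := inv_inv' μ
  have hbp := ball_pos μ hη0
  have hib := inv_ball hc0 hη0 (hball η hη0 hη1)
  have hmain := Zi_le (m := m) (m' := m') hζ μ hβ0 hη0 (by omega : 0 < K) hKm hKm' i hsq
  refine hmain.trans ?_
  have hZ := ZZ_pos (m := m) (m' := m') (l := l) μ k β
  obtain ⟨Z, hZe⟩ : ∃ Z, Z = ZZ μ m m' l k β := ⟨_, rfl⟩
  rw [← hZe] at hZ ⊢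
  -- the volume factor
  have hvol : ((ball μ η ^ (4 * l ^ 2))⁻¹) ^ (4 * K * K) ≤ Real.exp (β * (ε / 4)) := by
    have h1 : ((ball μ η ^ (4 * l ^ 2))⁻¹) ^ (4 * K * K) = ((ball μ η)⁻¹) ^ (4 * l ^ 2 * (4 * K * K)) := by
      rw [← inv_pow, ← pow_mul]
    rw [h1]
    refine (pow_le_pow_left₀ (by positivity) hib _).trans ?_
    rw [← Real.exp_nat_mul]
    refine Real.exp_le_exp.2 ?_
    have h2 : η⁻¹ = l * K * e⁻¹ := by
      rw [hη, inv_div]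
      field_simp
    rw [h2]
    have h3 : (((4 * l ^ 2 * (4 * K * K) : ℕ) : ℝ)) * (c0⁻¹ + 2 * N ^ 2 * (l * K * e⁻¹)) ≤
        C2 * (l * K) ^ 3 := by
      rw [hC2]
      push_cast
      have h4 : c0⁻¹ + 2 * (N : ℝ) ^ 2 * (l * K * e⁻¹) ≤ (c0⁻¹ + 2 * N ^ 2 * e⁻¹) * (l * K) := by
        have : c0⁻¹ ≤ c0⁻¹ * (l * K) := by
          have hi0 : 0 < c0⁻¹ := by positivity
          nlinarith
        calc c0⁻¹ + 2 * (N : ℝ) ^ 2 * (l * K * e⁻¹)
            ≤ c0⁻¹ * (l * K) + 2 * (N : ℝ) ^ 2 * (l * K * e⁻¹) := by linarith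
          _ = (c0⁻¹ + 2 * N ^ 2 * e⁻¹) * (l * K) := by ring
      calc 4 * (l : ℝ) ^ 2 * (4 * K * K) * (c0⁻¹ + 2 * N ^ 2 * (l * K * e⁻¹))
          ≤ 4 * (l : ℝ) ^ 2 * (4 * K * K) * ((c0⁻¹ + 2 * N ^ 2 * e⁻¹) * (l * K)) :=
            mul_le_mul_of_nonneg_left h4 (by positivity)
        _ = 16 * (c0⁻¹ + 2 * N ^ 2 * e⁻¹) * (l * K) ^ 3 := by ring
    refine h3.trans ?_
    have h5 : ((l : ℝ) * K) ^ 3 = (κ * C0) ^ 3 * l ^ (3 * (q + 1)) := by
      rw [hKr]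
      ring
    rw [h5]
    have h6 : 4 / ε * (C2 * (κ * C0) ^ 3) * l ^ (3 * (q + 1)) ≤ β :=
      (mul_le_mul_of_nonneg_right hCc (by positivity)).trans hβ
    have h7 := mul_le_mul_of_nonneg_right h6 (by positivity : (0 : ℝ) ≤ ε / 4)
    refine le_trans (le_of_eq ?_) h7
    field_simp
  have hvol2 : ((ball μ η ^ (4 * l ^ 2))⁻¹ * Real.exp (β * (48 * (l : ℝ) ^ 2 * η ^ 2))) ^
      (4 * K * K) ≤ Real.exp (β * (ε / 4)) * Real.exp (β * (ε / 4)) := by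
    rw [mul_pow, ← Real.exp_nat_mul]
    refine mul_le_mul hvol ?_ (Real.exp_pos _).le (Real.exp_pos _).le
    refine Real.exp_le_exp.2 ?_
    have h1 := mul_le_mul_of_nonneg_left hη2 hβ0
    push_cast
    linarith
  have hfour := four_pow_le hε (hCd.trans hβC)
  have hmm : ((2 * m : ℕ) : ℝ) * (2 * m' : ℕ) ≤ 4 * β ^ 4 := by
    push_cast
    have h1 : (m : ℝ) * m' ≤ β ^ 2 * β ^ 2 := mul_le_mul hmβ hmβ' (Nat.cast_nonneg _) (by positivity)
    nlinarith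
  have e5 : Real.exp (-(β * (S - ε))) = Real.exp (β * (ε / 4)) * (Real.exp (-(β * (S - ε / 4))) *
      (Real.exp (β * (ε / 4)) * Real.exp (β * (ε / 4)))) := by
    rw [← Real.exp_add, ← Real.exp_add, ← Real.exp_add]; congr 1; ring
  calc ((2 * m : ℕ) : ℝ) * ((2 * m' : ℕ) * (Real.exp (-(β * (S - ε / 4))) *
        (((ball μ η ^ (4 * l ^ 2))⁻¹ * Real.exp (β * (48 * (l : ℝ) ^ 2 * η ^ 2))) ^ (4 * K * K) * Z)))
      = (((2 * m : ℕ) : ℝ) * (2 * m' : ℕ)) * (Real.exp (-(β * (S - ε / 4))) *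
        (((ball μ η ^ (4 * l ^ 2))⁻¹ * Real.exp (β * (48 * (l : ℝ) ^ 2 * η ^ 2))) ^ (4 * K * K) * Z)) := by
        ring
    _ ≤ (4 * β ^ 4) * (Real.exp (-(β * (S - ε / 4))) *
        ((Real.exp (β * (ε / 4)) * Real.exp (β * (ε / 4))) * Z)) := by
        refine mul_le_mul hmm (mul_le_mul_of_nonneg_left
          (mul_le_mul_of_nonneg_right hvol2 hZ.le) (Real.exp_pos _).le) (by positivity)
          (by positivity)
    _ ≤ Real.exp (β * (ε / 4)) * (Real.exp (-(β * (S - ε / 4))) *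
        ((Real.exp (β * (ε / 4)) * Real.exp (β * (ε / 4))) * Z)) :=
        mul_le_mul_of_nonneg_right hfour (by positivity)
    _ = _ := by rw [e5]; ring

end Run7.h115.QS
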